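import Pool.Agent.W313.HB.RatioGFinal
import Pool.Agent.W313.HB.Stm7
import Pool.Agent.W756.HB.Smptd
import Pool.Agent.W168.HB.Smsqd

/-!
# The Hasse principle for 100% of the quadratic twists of Fano double covers of `ℙⁿ × ℙ¹`

Let `F(x; u, v) = A(x) u² + B(x) u v + D(x) v²` be a form of bidegree `(2 d, 2)` with integral
coefficients such that the divisor `F = 0` in `ℙⁿ × ℙ¹` is smooth. The double covers
`X_a : w² = a F(x; u, v)` are smooth, of dimension `n + 1`; they are Fano varieties for `d ≤ n`,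
for example the Fano threefolds of types 2.18 and 2.2 for `n = 2` and `d = 1, 2`. For `100%` of the
squarefree integers `a` for which `X_a` has points everywhere locally (this is a positive proportion)
`X_a` has a rational point.
-/

set_option autoImplicit false

namespace Pool.Agent.Results.MP_03ef3d_ag.FanoDoubleCovers

open Pool.Agent.W313.HB

/-- The value of `F = A u² + B u v + D v²`. -/
noncomputable def value {n : ℕ} (A B D : MvPolynomial (Fin (n + 1)) ℤ) {K : Type} [Field K]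
    (x : Fin (n + 1) → K) (u v : K) : K :=
  MvPolynomial.aeval x A * u ^ 2 + MvPolynomial.aeval x B * (u * v) + MvPolynomial.aeval x D * v ^ 2

/-- The divisor `A u² + B u v + D v² = 0` in `ℙⁿ × ℙ¹` is smooth: there is no point `(x, (u, v))`
over a field of characteristic zero at which all the partial derivatives vanish. -/
def SmoothBranch {n : ℕ} (A B D : MvPolynomial (Fin (n + 1)) ℤ) : Prop :=
  ∀ (K : Type) [Field K] [CharZero K] (x : Fin (n + 1) → K) (u v : K), x ≠ 0 → (u ≠ 0 ∨ v ≠ 0) →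
    2 * MvPolynomial.aeval x A * u + MvPolynomial.aeval x B * v = 0 →
    MvPolynomial.aeval x B * u + 2 * MvPolynomial.aeval x D * v = 0 →
    ¬ ∀ i, value (MvPolynomial.pderiv i A) (MvPolynomial.pderiv i B) (MvPolynomial.pderiv i D) x u v
      = 0

/-- The double cover `w² = a F(x; u, v)` of `ℙⁿ × ℙ¹` has a point over the field `K`. -/
def HasPoint {n : ℕ} (A B D : MvPolynomial (Fin (n + 1)) ℤ) (a : ℤ) (K : Type) [Field K] : Prop :=
  ∃ (x : Fin (n + 1) → K) (u v w : K), x ≠ 0 ∧ (u ≠ 0 ∨ v ≠ 0) ∧ w ^ 2 = (a : K) * value A B D x u v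

/-- The squarefree integers of absolute value at most `H` for which the twist has a point over `ℝ`
and over every `ℚ_p`. -/
def locallySoluble {n : ℕ} (A B D : MvPolynomial (Fin (n + 1)) ℤ) (H : ℕ) : Set ℤ :=
  {a | |a| ≤ H ∧ Squarefree a ∧ HasPoint A B D a ℝ ∧ ∀ p : Nat.Primes, HasPoint A B D a ℚ_[(p : ℕ)]}

/-- The squarefree integers of absolute value at most `H` for which the twist has a rational
point. -/
def globallySoluble {n : ℕ} (A B D : MvPolynomial (Fin (n + 1)) ℤ) (H : ℕ) : Set ℤ :=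
  {a | |a| ≤ H ∧ Squarefree a ∧ HasPoint A B D a ℚ}

lemma fin_of {H : ℕ} {S : Set ℤ} (h : ∀ a ∈ S, |a| ≤ (H : ℤ)) : S.Finite := by
  apply (Set.finite_Icc (-(H : ℤ)) H).subset
  intro a ha
  exact Set.mem_Icc.2 (abs_le.1 (h a ha))

lemma aeval_zero_of {n d : ℕ} {G : MvPolynomial (Fin (n + 1)) ℤ} (h : G.IsHomogeneous d)
    (hd : d ≠ 0) {K : Type} [Field K] : MvPolynomial.aeval (0 : Fin (n + 1) → K) G = 0 := by
  rw [MvPolynomial.aeval_def]
  rw [MvPolynomial.eval₂_eq]
  apply Finset.sum_eq_zero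
  intro m hm
  have hm' := h (MvPolynomial.mem_support_iff.1 hm)
  have : ∃ i ∈ m.support, m i ≠ 0 := by
    by_contra hcon
    push Not at hcon
    have h0 : m = 0 := by
      ext i
      by_cases hi : i ∈ m.support
      · exact hcon i hi
      · simpa using hi
    rw [h0] at hm'
    simp at hm'
    exact hd hm'.symm
  obtain ⟨i, hi, hi'⟩ := this
  rw [Finset.prod_eq_zero hi]
  · simp
  · simp [hi']

lemma toPtW {n : ℕ} {A B D : MvPolynomial (Fin (n + 1)) ℤ} (hne : B ^ 2 - 4 * A * D ≠ 0)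
    (hs : SmoothBranch A B D) {a : ℤ} (ha : a ≠ 0) (K : Type) [NontriviallyNormedField K]
    [CompleteSpace K] [CharZero K] (h : HasPoint A B D a K) :
    PtW A B D a (Set.univ : Set (Fin (n + 1) → K)) :=
  Pool.Agent.W756.HB.smptd_ n A B D hne (fun K _ _ x u v => hs K x u v) a ha K h

lemma ofPtW {n d : ℕ} {A B D : MvPolynomial (Fin (n + 1)) ℤ} (hd : 1 ≤ d)
    (hA : A.IsHomogeneous (2 * d)) (hB : B.IsHomogeneous (2 * d)) (hD : D.IsHomogeneous (2 * d))
    {a : ℤ} {K : Type} [Field K] {Ω : Set (Fin (n + 1) → K)} (h : PtW A B D a Ω) :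
    HasPoint A B D a K := by
  obtain ⟨x, -, h1, u, v, w, h2, h3⟩ := h
  refine ⟨x, u, v, w, ?_, ?_, h3⟩
  · rintro rfl
    apply h1
    rw [map_sub, map_mul, map_mul, map_pow, aeval_zero_of hA (by omega), aeval_zero_of hB (by omega)]
    simp
  · by_contra hcon
    push Not at hcon
    rw [hcon.1, hcon.2] at h3
    have hw : w = 0 := by
      have : w ^ 2 = 0 := by rw [h3]; ring
      exact pow_eq_zero_iff (two_ne_zero) |>.1 this
    rcases h2 with h2 | h2 | h2
    · exact h2 hcon.1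
    · exact h2 hcon.2
    · exact h2 hw

lemma cast_point {n : ℕ} {A B D : MvPolynomial (Fin (n + 1)) ℤ} {a : ℤ} (K : Type) [Field K]
    [CharZero K] (h : HasPoint A B D a ℚ) : HasPoint A B D a K := by
  obtain ⟨x, u, v, w, h1, h2, h3⟩ := h
  refine ⟨fun i => (x i : K), u, v, w, ?_, ?_, ?_⟩
  · intro h
    apply h1
    funext i
    have := congrFun h i
    simpa using this
  · exact h2.imp (fun h => by exact_mod_cast h) (fun h => by exact_mod_cast h)
  · have h4 := congrArg (fun t : ℚ => (t : K)) h3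
    unfold value at h4 ⊢
    rw [Pool.Agent.W975.HB.aeval_cast, Pool.Agent.W975.HB.aeval_cast,
      Pool.Agent.W975.HB.aeval_cast]
    push_cast at h4 ⊢
    exact h4

theorem result (n d : ℕ) (hn : 1 ≤ n) (hd : 1 ≤ d) (A B D : MvPolynomial (Fin (n + 1)) ℤ)
    (hA : A.IsHomogeneous (2 * d)) (hB : B.IsHomogeneous (2 * d)) (hD : D.IsHomogeneous (2 * d))
    (hs : SmoothBranch A B D) :
    (∃ c : ℝ, 0 < c ∧ ∀ᶠ H : ℕ in Filter.atTop,
      c * (H : ℝ) ≤ ((locallySoluble A B D H).ncard : ℝ)) ∧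
    Filter.Tendsto (fun H : ℕ => ((globallySoluble A B D H).ncard : ℝ) /
      ((locallySoluble A B D H).ncard : ℝ)) Filter.atTop (nhds 1) := by
  classical
  have hsq : Squarefree (MvPolynomial.map (Int.castRingHom ℚ) (B ^ 2 - 4 * A * D)) :=
    Pool.Agent.W168.HB.smsqd_ n d d A B D hn hA (by rwa [two_mul] at hB) hD (by omega)
      (fun K _ _ x u v => hs K x u v)
  have hne : B ^ 2 - 4 * A * D ≠ 0 := by
    intro h
    rw [h, map_zero] at hsq
    exact hsq.ne_zero rfl
  have f1 : ∀ H : ℕ, (locallySoluble A B D H).Finite := fun H => fin_of fun a ha => ha.1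
  have f2 : ∀ H : ℕ, (globallySoluble A B D H).Finite := fun H => fin_of fun a ha => ha.1
  obtain ⟨⟨c, hc, H0, h1⟩, h2⟩ := ratiog' n d d A B D hA (by rwa [two_mul] at hB) hD (by omega) hsq
    Set.univ (fun p => Set.univ) isOpen_univ (fun p => isOpen_univ) (by simp) Set.univ_nonempty
    (fun p => Set.univ_nonempty)
  have e1 : ∀ H : ℕ, loccG A B D Set.univ (fun p => Set.univ) H = (f1 H).toFinset := by
    intro H
    ext a
    unfold loccG
    rw [Set.Finite.mem_toFinset, Finset.mem_filter, Finset.mem_Icc, ← abs_le]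
    constructor
    · rintro ⟨h3, h4, h5, h6⟩
      exact ⟨h3, h4, ofPtW hd hA hB hD h5, fun p => ofPtW hd hA hB hD (h6 p)⟩
    · rintro ⟨h3, h4, h5, h6⟩
      exact ⟨h3, h4, toPtW hne hs h4.ne_zero ℝ h5, fun p => toPtW hne hs h4.ne_zero _ (h6 p)⟩
  have e2 : ∀ H : ℕ, globG A B D Set.univ (fun p => Set.univ) H ⊆ (f2 H).toFinset := by
    intro H a ha
    unfold globG at ha
    rw [Finset.mem_filter, Finset.mem_Icc, ← abs_le] at ha
    rw [Set.Finite.mem_toFinset]
    exact ⟨ha.1, ha.2.1, ofPtW hd hA hB hD ha.2.2⟩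
  have e3 : ∀ H : ℕ, (f2 H).toFinset ⊆ (f1 H).toFinset := by
    intro H a ha
    rw [Set.Finite.mem_toFinset] at ha ⊢
    exact ⟨ha.1, ha.2.1, cast_point ℝ ha.2.2, fun p => cast_point _ ha.2.2⟩
  refine ⟨⟨c, hc, ?_⟩, ?_⟩
  · filter_upwards [Filter.eventually_ge_atTop H0] with H hH
    rw [Set.ncard_eq_toFinset_card _ (f1 H), ← e1]
    exact h1 H hH
  · apply tendsto_of_tendsto_of_tendsto_of_le_of_le h2 tendsto_const_nhds
    · intro H
      dsimp only
      rw [Set.ncard_eq_toFinset_card _ (f1 H), Set.ncard_eq_toFinset_card _ (f2 H), ← e1]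
      apply div_le_div_of_nonneg_right _ (Nat.cast_nonneg _)
      exact_mod_cast Finset.card_le_card (e2 H)
    · intro H
      dsimp only
      rw [Set.ncard_eq_toFinset_card _ (f1 H), Set.ncard_eq_toFinset_card _ (f2 H)]
      apply div_le_one_of_le₀ _ (Nat.cast_nonneg _)
      exact_mod_cast Finset.card_le_card (e3 H)

end Pool.Agent.Results.MP_03ef3d_ag.FanoDoubleCovers
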